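import Pool.Agent.Q329.AC.Core

/-!
# Gap d-to-1 label cover is not hard under constant-depth reductions

A d-to-1 label cover instance with the vertex sets `V` (labels `Fin R`) and `W` (labels
`Fin (d * R)`) is given by its adjacency bits: for all `v`, `w` and all maps `π` of labels the bit of
the position `(v, w, π)` tells whether there is an edge between `v` and `w` with the constraint `π`.

A many-one reduction from parity to the problem to distinguish the value one from values less than
`ε`, computed by circuits of constant depth, needs exponential size, for all `d`, `R` and `ε ≤ 1`. So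
for no `ε < 1` and no number of labels is the problem hard for `NP`, or even for parity, under
(nonuniform) `AC0` many-one reductions, whereas `NP`-hardness proofs which do not produce a gap
usually are such reductions. The numbers of vertices and of labels may grow with the input, and `ε`
may tend to one; the number of edges may depend on the input.

The definitions of circuits (`Circuit`, `nodeVal`, `nodeDepth`: NOT gates and AND and OR gates of
unbounded fan-in) are in `Pool/Agent/H568R2/Defs.lean`.

Idea of the proof. Of the edges of an instance of value less than `ε` a fraction `1 - ε` are not in a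
given instance of value one, because they are violated by the labelling which satisfies all edges of
the latter. Under a random restriction which leaves many variables free, all bits become decision
trees of small depth `s`, so at every input at most `s` of the free variables are sensitive for a
given edge. Count the triples of an input, a free variable and an edge which disappears when the
variable is flipped.
-/

set_option autoImplicit false

namespace Pool.Agent.Results.MP_62e2f2_lc.ConstantDepthReductions

open Finset DomAC0
open scoped Classical

/-- The positions of the adjacency bits: a left vertex, a right vertex and a map of labels. -/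
abbrev Position (V W : Type) (d R : ℕ) : Type := V × W × (Fin (d * R) → Fin R)

/-- The edges of the instance with the adjacency bits `y`. -/
noncomputable def edges {V W : Type} [Fintype V] [Fintype W] {d R : ℕ}
    (y : Position V W d R → Bool) : Finset (Position V W d R) :=
  univ.filter fun p => y p = true

/-- There is an edge, and all constraints are `d`-to-1. -/
def IsInstance {V W : Type} {d R : ℕ} (y : Position V W d R → Bool) : Prop :=
  (∃ p, y p = true) ∧ ∀ p, y p = true → ∀ c, (univ.filter fun a => p.2.2 a = c).card ≤ d

/-- The labelling satisfies the edge. -/
def Satisfies {V W : Type} {d R : ℕ} (L : V → Fin R) (K : W → Fin (d * R))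
    (p : Position V W d R) : Prop :=
  p.2.2 (K p.2.1) = L p.1

/-- Some labelling satisfies all edges. -/
def ValueOne {V W : Type} {d R : ℕ} (y : Position V W d R → Bool) : Prop :=
  IsInstance y ∧ ∃ (L : V → Fin R) (K : W → Fin (d * R)), ∀ p, y p = true → Satisfies L K p

/-- Every labelling satisfies less than a fraction `ε` of the edges. -/
def ValueLess {V W : Type} [Fintype V] [Fintype W] {d R : ℕ} (ε : ℝ)
    (y : Position V W d R → Bool) : Prop :=
  IsInstance y ∧ ∀ (L : V → Fin R) (K : W → Fin (d * R)),
    (((edges y).filter fun p => Satisfies L K p).card : ℝ) < ε * (edges y).card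

/-- For every depth `h` there is `X₀` with the following property. Let `C` be a circuit with `N`
inputs, with NOT gates and AND and OR gates of unbounded fan-in, whose nodes `out p` of depth at most
`h` compute, for each input `x`, the adjacency bits of a `d`-to-1 label cover instance with the
vertex sets `V` and `W` and the label sets `Fin R` and `Fin (d * R)`. Let `ε ≤ 1`. If the value of the
instance is one whenever `x` has an even number of ones, and less than `ε` whenever `x` has an odd
number of ones, and if `X = (1 - ε) N ≥ X₀`, then `C` has at least `2 ^ (X ^ (1 / (h + 1)) / 100)`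
gates. -/
theorem result (h : ℕ) : ∃ X₀ : ℝ, ∀ (N : ℕ) (C : Circuit (Fin N)) (V W : Type) [Fintype V]
    [Fintype W] (d R : ℕ) (out : Position V W d R → Fin N ⊕ Fin C.size) (ε : ℝ),
    (∀ p, C.nodeDepth (out p) ≤ h) → 0 ≤ ε → ε ≤ 1 →
    (∀ x, ¬ Odd (univ.filter fun i => x i = true).card → ValueOne fun p => C.nodeVal x (out p)) →
    (∀ x, Odd (univ.filter fun i => x i = true).card →
      ValueLess ε fun p => C.nodeVal x (out p)) →
    X₀ ≤ (1 - ε) * N →
    (2 : ℝ) ^ (((1 - ε) * N) ^ (1 / (h + 1 : ℝ)) / 100) ≤ C.size := by
  obtain ⟨X₀, hX1, hX₀⟩ := Pool.Agent.Q329.AC.large h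
  refine ⟨X₀, ?_⟩
  intro N C V W _ _ d R out ε hdepth hε0 hε1 hyes hno hX
  have key : ∀ y y' : Position V W d R → Bool, ValueOne y → ValueLess ε y' →
      (1 - ε) * Pool.Agent.Q329.AC.num y' ≤ Pool.Agent.Q329.AC.gone y' y := by
    rintro y y' ⟨-, L, K, hLK⟩ ⟨-, hy⟩
    have h1 := hy L K
    have h2 := Finset.card_filter_add_card_filter_not (s := edges y')
      (p := fun p => Satisfies L K p)
    have h3 : (((edges y').filter fun p => ¬ Satisfies L K p).card : ℝ) ≤
        (Pool.Agent.Q329.AC.gone y' y : ℝ) := by
      unfold Pool.Agent.Q329.AC.gone
      norm_cast
      refine card_le_card fun p hp => ?_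
      rw [mem_filter, edges, mem_filter] at hp
      rw [mem_filter]
      refine ⟨mem_univ _, hp.1.2, ?_⟩
      by_contra hcon
      rw [Bool.not_eq_false] at hcon
      exact hp.2 (hLK p hcon)
    have h4 : (Pool.Agent.Q329.AC.num y' : ℝ) = (edges y').card := by
      unfold Pool.Agent.Q329.AC.num edges
      norm_cast
    have h5 : (((edges y').filter fun p => Satisfies L K p).card : ℝ) +
        (((edges y').filter fun p => ¬ Satisfies L K p).card : ℝ) = (edges y').card := by
      exact_mod_cast h2
    rw [h4]
    linarith
  have hne : ∀ y : Position V W d R → Bool, IsInstance y → 1 ≤ Pool.Agent.Q329.AC.num y := by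
    rintro y ⟨⟨p, hp⟩, -⟩
    unfold Pool.Agent.Q329.AC.num
    exact card_pos.2 ⟨p, mem_filter.2 ⟨mem_univ _, hp⟩⟩
  refine hX₀ _ C.size hX fun s hs hcond => ?_
  refine Pool.Agent.Q329.AC.set_core C out h hdepth (1 - ε) (by linarith) (fun x => ?_)
    (fun x i => ?_) hs hcond
  · by_cases hodd : Odd (univ.filter fun j => x j = true).card
    · exact hne _ (hno x hodd).1
    · exact hne _ (hyes x hodd).1
  · have hpar := Pool.Agent.Y601.SSE.odd_flip i x
    by_cases hodd : Odd (univ.filter fun j => x j = true).card
    · have hev : ¬ Odd (univ.filter fun j => Pool.Agent.Y601.SSE.flip i x j = true).card := by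
        rw [hpar]; exact not_not.2 hodd
      have h1 := Pool.Agent.Q329.AC.gone_sum (by linarith) (by linarith)
        (key _ _ (hyes _ hev) (hno _ hodd))
      linarith
    · exact Pool.Agent.Q329.AC.gone_sum (by linarith) (by linarith)
        (key _ _ (hyes _ hodd) (hno _ (hpar.2 hodd)))

end Pool.Agent.Results.MP_62e2f2_lc.ConstantDepthReductions
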