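import Pool.Agent.Q330.FRD.Sharp

/-!
# Reductions to gap d-to-1 label cover whose outputs are computed by formulas

A reduction maps an input, a subset of a finite set `X` of variables, to a list of edges of a
`d`-to-1 label cover instance. Every entry of the list (a left vertex, a right vertex and a map of
labels, or nothing) is encoded by arbitrarily many bits, and each bit is computed by a formula with
the gates AND and OR. The leaves of the formulas may be arbitrary conditions; the cost of a formula
is the number of its leaves if the leaves are literals.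

The theorem: if inputs in `A` are mapped to instances of value one and inputs in `B` to instances of
value less than `ε` with at least `μ` edges, then Khrapchenko's lower bound for the pair `(A, B)`
carries over to the single edges of the instance. So the square roots of the costs of all formulas
have at least the sum `(1 - ε) μ √K`, where `K` is Khrapchenko's lower bound for the number of the
leaves of formulas which separate `A` from `B`. For parity this is `(1 - ε) μ N`, which is optimal.

Idea of the proof. Let `a ∈ A` and `b ∈ B` differ in one variable. The labelling which satisfies all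
edges of the first instance violates a fraction `1 - ε` of the edges of the second one, and so these
edges have different descriptions. Sum over the pairs and use Khrapchenko's inequality for each
formula and the two pairs of classes into which it splits `A` and `B`.
-/

set_option autoImplicit false

namespace Pool.Agent.Results.MP_62e2f2_lc.FormulaReductions

open Finset Pool.Agent.Q330.PHI Pool.Agent.Q330.FRD
open scoped Classical

/-- An edge: a left vertex, a right vertex and a map of labels. -/
abbrev Edge (V W : Type) (d R : ℕ) : Type := V × W × (Fin (d * R) → Fin R)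

/-- An instance is given by its entries; each entry is an edge or empty. -/
abbrev Inst (E V W : Type) (d R : ℕ) : Type := E → Option (Edge V W d R)

/-- The entries which are edges. -/
noncomputable def edges {E V W : Type} [Fintype E] {d R : ℕ} (y : Inst E V W d R) : Finset E :=
  univ.filter fun e => ∃ p, y e = some p

/-- All constraints are `d`-to-1. -/
def DToOne {E V W : Type} {d R : ℕ} (y : Inst E V W d R) : Prop :=
  ∀ e p, y e = some p → ∀ c, (univ.filter fun a => p.2.2 a = c).card ≤ d

/-- The labelling satisfies the edge. -/
def Satisfies {V W : Type} {d R : ℕ} (L : V → Fin R) (K : W → Fin (d * R))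
    (p : Edge V W d R) : Prop :=
  p.2.2 (K p.2.1) = L p.1

/-- Some labelling satisfies all edges. -/
def ValueOne {E V W : Type} {d R : ℕ} (y : Inst E V W d R) : Prop :=
  DToOne y ∧ ∃ (L : V → Fin R) (K : W → Fin (d * R)), ∀ e p, y e = some p → Satisfies L K p

/-- Every labelling satisfies less than a fraction `ε` of the edges. -/
def ValueLess {E V W : Type} [Fintype E] {d R : ℕ} (ε : ℝ) (y : Inst E V W d R) : Prop :=
  DToOne y ∧ ∀ (L : V → Fin R) (K : W → Fin (d * R)),
    ((univ.filter fun e => ∃ p, y e = some p ∧ Satisfies L K p).card : ℝ) < ε * (edges y).card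

theorem differ {E V W : Type} [Fintype E] {d R : ℕ} {ε : ℝ} {μ : ℕ} (hε : ε ≤ 1)
    {y y' : Inst E V W d R} (hy : ValueOne y) (hy' : ValueLess ε y') (hμ : μ ≤ (edges y').card) :
    (1 - ε) * μ ≤ ((univ.filter fun e => y e ≠ y' e).card : ℝ) := by
  obtain ⟨-, L, K, hLK⟩ := hy
  have h1 := hy'.2 L K
  have h2 : edges y' ⊆ (univ.filter fun e => ∃ p, y' e = some p ∧ Satisfies L K p) ∪
      (univ.filter fun e => y e ≠ y' e) := by
    intro e he
    obtain ⟨p, hp⟩ := (mem_filter.1 he).2
    rw [mem_union, mem_filter, mem_filter]
    by_cases h : y e = y' e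
    · exact Or.inl ⟨mem_univ _, p, hp, hLK e p (h.trans hp)⟩
    · exact Or.inr ⟨mem_univ _, h⟩
  have h3 : ((edges y').card : ℝ) ≤
      ((univ.filter fun e => ∃ p, y' e = some p ∧ Satisfies L K p).card : ℝ) +
      ((univ.filter fun e => y e ≠ y' e).card : ℝ) := by
    exact_mod_cast (card_le_card h2).trans (card_union_le _ _)
  have h4 : (1 - ε) * μ ≤ (1 - ε) * (edges y').card :=
    mul_le_mul_of_nonneg_left (by exact_mod_cast hμ) (by linarith)
  linarith

/-- (1) Let the edges of the instances `y x` be encoded in any way by bits `φ e j`, which are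
formulas. Let the value of `y x` be one for `x ∈ A` and less than `ε` for `x ∈ B`, where `y x` has at
least `μ` edges. Then `(1 - ε) μ` times the number of the pairs in `A × B` which differ in exactly one
variable, which is in `D`, is at most `√(|A| |B|)` times the sum of the square roots of the costs of
all formulas; the cost of a leaf is the product of its two sensitivities to `D`.

(2) If the value is one for the sets with an even number of elements, and less than `ε` for the sets
with an odd number of elements, then the sum of the square roots of the costs is at least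
`(1 - ε) μ N` for `N` variables.

(3) Conversely, let `N = 2 ^ t` and let `y₁` and `y₀` be any two instances, of value one and of value
less than `ε`. There is such a reduction of parity, to `y₁` and `y₀`, with one bit for each entry, for
which the sum is at most `N` times the number of the entries at which `y₁` and `y₀` differ. -/
theorem result :
    (∀ (X E J V W : Type) [Fintype X] [Fintype E] [Fintype J] (d R : ℕ) (ε : ℝ) (μ : ℕ)
      (φ : E → J → Fml X) (dec : E → (J → Prop) → Option (Edge V W d R)) (D : Finset X)
      (A B : Finset (Finset X)), ε ≤ 1 →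
      (∀ a ∈ A, ValueOne fun e => dec e fun j => (φ e j).Val a) →
      (∀ b ∈ B, ValueLess ε fun e => dec e fun j => (φ e j).Val b) →
      (∀ b ∈ B, μ ≤ (edges fun e => dec e fun j => (φ e j).Val b).card) →
      (1 - ε) * μ * (prs D A B).card ≤
        Real.sqrt (A.card * B.card) * ∑ e, ∑ j, Real.sqrt ((φ e j).cost D)) ∧
    (∀ (X E J V W : Type) [Fintype X] [Fintype E] [Fintype J] (d R : ℕ) (ε : ℝ) (μ : ℕ)
      (φ : E → J → Fml X) (dec : E → (J → Prop) → Option (Edge V W d R)), ε ≤ 1 →
      (∀ a : Finset X, a.card % 2 = 0 → ValueOne fun e => dec e fun j => (φ e j).Val a) →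
      (∀ b : Finset X, b.card % 2 = 1 → ValueLess ε (fun e => dec e fun j => (φ e j).Val b) ∧
        μ ≤ (edges fun e => dec e fun j => (φ e j).Val b).card) →
      (1 - ε) * μ * Fintype.card X ≤ ∑ e, ∑ j, Real.sqrt ((φ e j).cost univ)) ∧
    (∀ (E V W : Type) [Fintype E] (d R : ℕ) (ε : ℝ) (y₁ y₀ : Inst E V W d R) (t : ℕ),
      ValueOne y₁ → ValueLess ε y₀ →
      ∃ (φ : E → Unit → Fml (Fin (2 ^ t))) (dec : E → (Unit → Prop) → Option (Edge V W d R)),
        (∀ a : Finset (Fin (2 ^ t)), a.card % 2 = 0 →
          (fun e => dec e fun j => (φ e j).Val a) = y₁) ∧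
        (∀ b : Finset (Fin (2 ^ t)), b.card % 2 = 1 →
          (fun e => dec e fun j => (φ e j).Val b) = y₀) ∧
        ∑ e, ∑ j, Real.sqrt ((φ e j).cost univ) ≤
          ((univ.filter fun e => y₁ e ≠ y₀ e).card : ℝ) * 2 ^ t) := by
  have key : ∀ (X E J V W : Type) [Fintype X] [Fintype E] [Fintype J] (d R : ℕ) (ε : ℝ) (μ : ℕ)
      (φ : E → J → Fml X) (dec : E → (J → Prop) → Option (Edge V W d R)), ε ≤ 1 →
      ∀ a b : Finset X, ValueOne (fun e => dec e fun j => (φ e j).Val a) →
      ValueLess ε (fun e => dec e fun j => (φ e j).Val b) →
      μ ≤ (edges fun e => dec e fun j => (φ e j).Val b).card →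
      (1 - ε) * μ ≤ ((univ.filter fun e : E =>
        ∃ j, ¬ ((φ e j).Val a ↔ (φ e j).Val b)).card : ℝ) := by
    intro X E J V W _ _ _ d R ε μ φ dec hε a b ha hb hμ
    refine (differ hε ha hb hμ).trans ?_
    norm_cast
    refine card_le_card fun e he => ?_
    rw [mem_filter] at he ⊢
    refine ⟨mem_univ _, ?_⟩
    by_contra hcon
    push Not at hcon
    refine he.2 ?_
    congr 1
    funext j
    exact propext (hcon j)
  refine ⟨?_, ?_, ?_⟩
  · intro X E J V W _ _ _ d R ε μ φ dec D A B hε hA hB hμ
    exact core D φ A B _ fun a ha b hb => key X E J V W d R ε μ φ dec hε a b (hA a ha) (hB b hb)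
      (hμ b hb)
  · intro X E J V W _ _ _ d R ε μ φ dec hε hA hB
    exact core_parity φ _ fun a ha b hb => key X E J V W d R ε μ φ dec hε a b
      (hA a (mem_filter.1 ha).2) (hB b (mem_filter.1 hb).2).1 (hB b (mem_filter.1 hb).2).2
  · intro E V W _ d R ε y₁ y₀ t _ _
    obtain ⟨φ, dec, h1, h2, h3⟩ := choose_word y₁ y₀ t
    exact ⟨φ, dec, fun a ha => h1 a (mem_filter.2 ⟨mem_univ _, ha⟩),
      fun a ha => h2 a (mem_filter.2 ⟨mem_univ _, ha⟩), by convert h3⟩

end Pool.Agent.Results.MP_62e2f2_lc.FormulaReductions
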