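import Pool.Agent.TH522.DG.Main

/-!
# Subexponential levels of the mixed hierarchy solve gap d-to-1 label cover

A `d`-to-1 label cover instance has the vertex sets `V` (labels `B`) and `W` (labels `A`), edges
`e : E` with the ends `v e` and `w e`, and the constraints `π e (label of w e) = label of v e`, where
all fibres of `π e : A → B` have at most `d` elements. `n` is the number of vertices in `W`.

The level `k` of the mixed hierarchy (Sherali-Adams together with the basic semidefinite program;
`Mixed2 k L` in `Pool/Agent/TH522/DG/Hier.lean`) consists of linear functionals `L` on the functions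
of the labellings with `L 1 = 1` which are nonnegative on the nonnegative functions of at most `k + 2`
labels and on the products of a nonnegative function of at most `k` labels and a square of a sum of
functions of one label. `satE v w π e` is the indicator that the edge `e` is satisfied. The
relaxation can be solved in time polynomial in the size of the instance to the power `k`.

(1) (Perfect completeness) If for some `0 < r ≤ 1` the level `k ≥ n ^ r` has a solution of value
one, then some labelling satisfies at least the fraction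

  `ε = (256 d) ^ (- 18 log (36 / r) / r) / 2 ^ 19`

of the edges, for all numbers of labels and vertices. So for this `ε` the distinguishing problem of
Khot's conjecture is decided in subexponential time `exp (n ^ r polylog)` by the hierarchy, however
large `R` is, and under the exponential time hypothesis a reduction which proves the conjecture for
`ε` must have a blow-up `n ^ (1 / r)`, that is `n ^ (c log (1 / ε) / (log d log log (1 / ε)))` up to
the constant.

(2) (Any completeness `c`) If `x = log (256 d / c ^ 4) / l ≤ 1`, `0 < l ≤ log n` and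
`n ^ (9 x log (2 / x)) ≤ k`, and the level `k` has a solution of value at least `c`, then some
labelling satisfies at least a fraction `c ^ 5 e ^ (-l) / 2 ^ 19` of the edges.

Part (2) is the rounding theorem of the starting development `Pool/Agent/TH522/DG`.
-/

set_option autoImplicit false

namespace Pool.Agent.Results.MP_62e2f2_lc.SubexponentialHierarchy

open Finset Pool.Agent.TH522.DG

section

variable {V W A B E : Type} [Fintype V] [Fintype W] [Fintype E] [Fintype A] [Fintype B]
  [DecidableEq B]

/-- Few vertices: the edges at one vertex can be satisfied. -/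
theorem one_vertex (v : E → V) (w : E → W) (π : E → A → B) (k : ℕ)
    (L : ((W → A) × (V → B) → ℝ) →ₗ[ℝ] ℝ) (hL : Mixed2 k L)
    (hval : (Fintype.card E : ℝ) ≤ ∑ e, L (satE v w π e)) :
    ∃ (M : W → A) (N : V → B), (Fintype.card E : ℝ) ≤ Fintype.card W *
      ((univ.filter fun e => π e (M (w e)) = N (v e)).card : ℝ) := by
  classical
  have hne : Nonempty ((W → A) × (V → B)) := by
    by_contra hcon
    rw [not_nonempty_iff] at hcon
    have h1 := hL.one
    have h2 : (fun _ : (W → A) × (V → B) => (1 : ℝ)) = 0 := Subsingleton.elim _ _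
    rw [h2, map_zero] at h1
    exact zero_ne_one h1
  obtain ⟨M0, N0⟩ := hne
  rcases isEmpty_or_nonempty W with hW | hW
  · refine ⟨M0, N0, ?_⟩
    have hE : IsEmpty E := ⟨fun e => hW.elim (w e)⟩
    rw [Fintype.card_eq_zero (α := E)]
    simp
  -- all edges have value one
  have hle : ∀ e, L (satE v w π e) ≤ 1 := by
    intro e
    have h1 := hL.junta {w e} {v e} (by simp) (fun z => 1 - satE v w π e z) (by
      intro z z' h1 h2
      beta_reduce
      unfold satE
      rw [h1 _ (mem_singleton_self _), h2 _ (mem_singleton_self _)]) (fun z => by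
      unfold satE
      split_ifs <;> norm_num)
    have h2 : (fun z => 1 - satE v w π e z) =
        (fun _ : (W → A) × (V → B) => (1 : ℝ)) - satE v w π e := rfl
    rw [h2, map_sub, hL.one] at h1
    linarith
  have hone : ∀ e, L (satE v w π e) = 1 := by
    intro e
    refine le_antisymm (hle e) ?_
    by_contra hcon
    push Not at hcon
    have h1 : ∑ e, L (satE v w π e) < ∑ _e : E, (1 : ℝ) :=
      sum_lt_sum (fun e _ => hle e) ⟨e, mem_univ _, hcon⟩
    rw [sum_const, card_univ, nsmul_eq_mul, mul_one] at h1
    linarith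
  -- a vertex with many edges
  obtain ⟨w0, -, hw0⟩ := Finset.exists_max_image (univ : Finset W)
    (fun w' => (univ.filter fun e => w e = w').card) univ_nonempty
  have hdeg : Fintype.card E ≤ Fintype.card W * (univ.filter fun e => w e = w0).card := by
    have h1 : (univ : Finset E).card = ∑ w' : W, (univ.filter fun e => w e = w').card :=
      card_eq_sum_card_fiberwise (fun e _ => mem_univ _)
    rw [← card_univ, h1]
    refine (sum_le_sum fun w' _ => hw0 w' (mem_univ _)).trans ?_
    rw [sum_const, smul_eq_mul, card_univ]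
  -- a label of this vertex
  obtain ⟨a0, ha0⟩ : ∃ a0 : A, 0 < L (fun z => if z.1 w0 = a0 then 1 else 0) := by
    by_contra hcon
    push Not at hcon
    have h1 : ∑ a0, L (fun z => if z.1 w0 = a0 then 1 else 0) = 1 := by
      have h0 : (∑ a0, fun z : (W → A) × (V → B) => (if z.1 w0 = a0 then (1 : ℝ) else 0)) =
          fun _ => 1 := by
        funext z
        rw [Finset.sum_apply]
        simp
      rw [← map_sum, h0]
      exact hL.one
    have h2 := sum_nonpos fun a (_ : a ∈ (univ : Finset A)) => hcon a
    linarith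
  -- the other end of an edge has the right label
  have hzero : ∀ e, w e = w0 → L (fun z => if z.1 w0 = a0 ∧ z.2 (v e) ≠ π e a0 then 1 else 0) ≤
      0 := by
    intro e he
    have h1 := hL.junta {w e} {v e} (by simp) (fun z => 1 - satE v w π e z -
      (if z.1 w0 = a0 ∧ z.2 (v e) ≠ π e a0 then 1 else 0)) (by
      intro z z' h1 h2
      beta_reduce
      unfold satE
      rw [← he, h1 _ (mem_singleton_self _), h2 _ (mem_singleton_self _)]) (fun z => by
      unfold satE
      rw [he]
      by_cases h3 : z.1 w0 = a0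
      · by_cases h4 : z.2 (v e) = π e a0
        · rw [if_pos (by rw [h3, h4]), if_neg (by tauto)]
          norm_num
        · rw [if_neg (by rw [h3]; exact fun h => h4 h.symm), if_pos ⟨h3, h4⟩]
          norm_num
      · have h5 : ¬ (z.1 w0 = a0 ∧ z.2 (v e) ≠ π e a0) := fun h => h3 h.1
        rw [if_neg h5]
        split_ifs <;> norm_num)
    have h2 : (fun z => 1 - satE v w π e z -
        (if z.1 w0 = a0 ∧ z.2 (v e) ≠ π e a0 then 1 else 0)) =
        (fun _ : (W → A) × (V → B) => (1 : ℝ)) - satE v w π e -
          fun z => if z.1 w0 = a0 ∧ z.2 (v e) ≠ π e a0 then 1 else 0 := rfl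
    rw [h2, map_sub, map_sub, hL.one, hone e] at h1
    linarith
  have hsame : ∀ e e', w e = w0 → w e' = w0 → v e = v e' → π e a0 = π e' a0 := by
    intro e e' he he' hv
    by_contra hcon
    have h1 := hzero e he
    have h2 := hzero e' he'
    have h3 := hL.junta {w0} {v e} (by simp) (fun z =>
      (if z.1 w0 = a0 ∧ z.2 (v e) ≠ π e a0 then 1 else 0) +
      (if z.1 w0 = a0 ∧ z.2 (v e') ≠ π e' a0 then 1 else 0) -
      (if z.1 w0 = a0 then 1 else 0)) (by
      intro z z' h1 h2
      beta_reduce
      rw [← hv, h1 _ (mem_singleton_self _), h2 _ (mem_singleton_self _)]) (fun z => by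
      rw [← hv]
      by_cases h3 : z.1 w0 = a0
      · by_cases h4 : z.2 (v e) = π e a0
        · rw [if_neg (by tauto), if_pos ⟨h3, by rw [h4]; exact hcon⟩, if_pos h3]
          norm_num
        · rw [if_pos ⟨h3, h4⟩, if_pos h3]
          split_ifs <;> norm_num
      · rw [if_neg (fun h => h3 h.1), if_neg (fun h => h3 h.1), if_neg h3]
        norm_num)
    have h4 : (fun z =>
        (if z.1 w0 = a0 ∧ z.2 (v e) ≠ π e a0 then 1 else 0) +
        (if z.1 w0 = a0 ∧ z.2 (v e') ≠ π e' a0 then 1 else 0) -
        (if z.1 w0 = a0 then 1 else 0)) =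
        ((fun z => if z.1 w0 = a0 ∧ z.2 (v e) ≠ π e a0 then 1 else 0) +
          (fun z => if z.1 w0 = a0 ∧ z.2 (v e') ≠ π e' a0 then 1 else 0) -
          fun z => if z.1 w0 = a0 then 1 else 0 : (W → A) × (V → B) → ℝ) := rfl
    rw [h4, map_sub, map_add] at h3
    linarith
  refine ⟨fun _ => a0, fun v' => if h : ∃ e, w e = w0 ∧ v e = v' then π h.choose a0 else N0 v', ?_⟩
  have hsub : (univ.filter fun e => w e = w0) ⊆ univ.filter fun e =>
      π e a0 = (if h : ∃ e', w e' = w0 ∧ v e' = v e then π h.choose a0 else N0 (v e)) := by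
    intro e he
    rw [mem_filter] at he ⊢
    refine ⟨mem_univ _, ?_⟩
    have h : ∃ e', w e' = w0 ∧ v e' = v e := ⟨e, he.2, rfl⟩
    rw [dif_pos h]
    exact hsame e h.choose he.2 h.choose_spec.1 h.choose_spec.2.symm
  have h1 := card_le_card hsub
  have h2 := hdeg.trans (Nat.mul_le_mul_left (Fintype.card W) h1)
  exact_mod_cast h2

end

/-- (1) For all `0 < r ≤ 1` and `k ≥ |W| ^ r`: if the level `k` of the mixed hierarchy has a solution
of value one, then some labelling satisfies at least the fraction
`(256 d) ^ (-(18 log (36 / r) / r)) / 2 ^ 19` of the edges.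

(2) If `x = log (256 d / c ^ 4) / l`, `log (256 d / c ^ 4) ≤ l ≤ log |W|` and
`|W| ^ (9 x log (2 / x)) ≤ k`, and the level `k` has a solution of value at least `c`, `0 < c ≤ 1`,
then some labelling satisfies at least the fraction `c ^ 5 e ^ (-l) / 2 ^ 19` of the edges. -/
theorem result (V W A B E : Type) [Fintype V] [Fintype W] [Fintype E] [Fintype A] [Fintype B]
    [DecidableEq B] (v : E → V) (w : E → W) (π : E → A → B) (d : ℕ)
    (hfib : ∀ e b, (univ.filter fun a => π e a = b).card ≤ d) (k : ℕ)
    (L : ((W → A) × (V → B) → ℝ) →ₗ[ℝ] ℝ) (hL : Mixed2 k L) :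
    (∀ r : ℝ, 0 < r → r ≤ 1 → (Fintype.card W : ℝ) ^ r ≤ k →
      (Fintype.card E : ℝ) ≤ ∑ e, L (satE v w π e) →
      ∃ (M : W → A) (N : V → B),
        (256 * (d : ℝ)) ^ (-(18 * Real.log (36 / r) / r)) / 2 ^ 19 * (Fintype.card E : ℝ) ≤
          ((univ.filter fun e => π e (M (w e)) = N (v e)).card : ℝ)) ∧
    ∀ c l x : ℝ, 0 < c → c ≤ 1 → x = Real.log (256 * d / c ^ 4) / l → 0 < l →
      Real.log (256 * d / c ^ 4) ≤ l → l ≤ Real.log (Fintype.card W) →
      (Fintype.card W : ℝ) ^ (9 * (x * Real.log (2 / x))) ≤ k →
      c * (Fintype.card E : ℝ) ≤ ∑ e, L (satE v w π e) →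
      ∃ (M : W → A) (N : V → B), c ^ 5 * Real.exp (-l) / 2 ^ 19 * (Fintype.card E : ℝ) ≤
        ((univ.filter fun e => π e (M (w e)) = N (v e)).card : ℝ) := by
  classical
  refine ⟨fun r hr hr1 hk hval => ?_, fun c l x hc hc1 hx hl0 hl hln hk hval =>
    core v w π d (fun e b => hfib e b) c l x hc hc1 hx hl0 hl hln k hk L hL hval⟩
  obtain ⟨M1, N1, h1⟩ := one_vertex v w π k L hL hval
  -- no edges
  rcases Nat.eq_zero_or_pos (Fintype.card E) with hE | hE
  · refine ⟨M1, N1, ?_⟩
    rw [hE]
    simp
  have hE0 : (0 : ℝ) < Fintype.card E := by exact_mod_cast hE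
  obtain ⟨e0⟩ : Nonempty E := Fintype.card_pos_iff.1 hE
  have hd : 1 ≤ d := by
    have h2 := hfib e0 (π e0 (M1 (w e0)))
    have h3 : 0 < (univ.filter fun a => π e0 a = π e0 (M1 (w e0))).card :=
      card_pos.2 ⟨M1 (w e0), mem_filter.2 ⟨mem_univ _, rfl⟩⟩
    omega
  have hd1 : (1 : ℝ) ≤ d := by exact_mod_cast hd
  have hD : (256 : ℝ) ≤ 256 * d := by linarith
  have hΛ : 0 < Real.log (256 * d) := Real.log_pos (by linarith)
  have h36 : (36 : ℝ) ≤ 36 / r := by rw [le_div_iff₀ hr]; nlinarith
  have hlog36 : 1 < Real.log (36 / r) := by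
    rw [Real.lt_log_iff_exp_lt (by positivity)]
    have := Real.exp_one_lt_d9
    linarith
  obtain ⟨y, hy⟩ : ∃ y : ℝ, y = Real.log (36 / r) := ⟨_, rfl⟩
  rw [← hy] at hlog36 ⊢
  obtain ⟨x, hx⟩ : ∃ x : ℝ, x = r / (18 * y) := ⟨_, rfl⟩
  have hx0 : 0 < x := by rw [hx]; positivity
  have hx1 : x ≤ 1 := by
    rw [hx, div_le_one (by positivity)]
    linarith
  obtain ⟨l, hl⟩ : ∃ l : ℝ, l = Real.log (256 * d) / x := ⟨_, rfl⟩
  have hl0 : 0 < l := by rw [hl]; positivity
  have hle : Real.log (256 * d) ≤ l := by
    rw [hl, le_div_iff₀ hx0]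
    nlinarith
  have hxl : x = Real.log (256 * d / 1 ^ 4) / l := by
    rw [one_pow, div_one, hl]
    field_simp
  have hexp : (256 * (d : ℝ)) ^ (-(18 * y / r)) = Real.exp (-l) := by
    rw [Real.rpow_def_of_pos (by linarith), hl, hx]
    congr 1
    field_simp
  -- the exponent
  have hexpo : 9 * (x * Real.log (2 / x)) ≤ r := by
    have h2 : Real.log (2 / x) = y + Real.log y := by
      have h3 : 2 / x = 36 / r * y := by
        rw [hx]
        field_simp
        norm_num
      rw [h3, Real.log_mul (by positivity) (by linarith), ← hy]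
    have h4 : Real.log y ≤ y := by
      have := Real.log_le_sub_one_of_pos (show 0 < y by linarith)
      linarith
    have h5 : x * y = r / 18 := by
      rw [hx]
      field_simp
    calc 9 * (x * Real.log (2 / x)) ≤ 9 * (x * (2 * y)) := by
          apply mul_le_mul_of_nonneg_left _ (by norm_num)
          apply mul_le_mul_of_nonneg_left _ hx0.le
          rw [h2]
          linarith
      _ = 18 * (x * y) := by ring
      _ = r := by rw [h5]; ring
  rw [hexp]
  have hW : Nonempty W := ⟨w e0⟩
  have hW1 : (1 : ℝ) ≤ Fintype.card W := by exact_mod_cast Fintype.card_pos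
  rcases le_or_gt l (Real.log (Fintype.card W)) with hln | hln
  · obtain ⟨M, N, h2⟩ := core v w π d (fun e b => hfib e b) 1 l x one_pos le_rfl hxl hl0
      (by rw [one_pow, div_one]; exact hle) hln k
      ((Real.rpow_le_rpow_of_exponent_le hW1 hexpo).trans hk) L hL (by rw [one_mul]; exact hval)
    refine ⟨M, N, ?_⟩
    rw [one_pow, one_mul] at h2
    exact h2
  · refine ⟨M1, N1, ?_⟩
    have h2 : (Fintype.card W : ℝ) < Real.exp l := by
      rw [← Real.log_lt_iff_lt_exp (by linarith)]
      exact hln
    have h3 : (0 : ℝ) ≤ ((univ.filter fun e => π e (M1 (w e)) = N1 (v e)).card : ℝ) :=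
      Nat.cast_nonneg _
    have h4 : (Fintype.card E : ℝ) ≤ Real.exp l *
        ((univ.filter fun e => π e (M1 (w e)) = N1 (v e)).card : ℝ) :=
      h1.trans (mul_le_mul_of_nonneg_right h2.le h3)
    have h5 : Real.exp (-l) * Real.exp l = 1 := by rw [← Real.exp_add]; simp
    calc Real.exp (-l) / 2 ^ 19 * (Fintype.card E : ℝ)
        ≤ Real.exp (-l) * (Fintype.card E : ℝ) := by
          apply mul_le_mul_of_nonneg_right _ hE0.le
          exact div_le_self (Real.exp_pos _).le (by norm_num)
      _ ≤ Real.exp (-l) * (Real.exp l *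
          ((univ.filter fun e => π e (M1 (w e)) = N1 (v e)).card : ℝ)) :=
          mul_le_mul_of_nonneg_left h4 (Real.exp_pos _).le
      _ = _ := by rw [← mul_assoc, h5, one_mul]

end Pool.Agent.Results.MP_62e2f2_lc.SubexponentialHierarchy
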