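import Pool.Agent.Q329.LT.Main

/-!
# Gap d-to-1 games are hard for read-once tensor networks, for every `d`, all `R ≥ 2` left labels and
every soundness above `1 / R`, with completeness one

The inputs are d-to-1 games on the complete bipartite graph with `n + n` vertices: the left vertices
get labels in `Fin R`, the right vertices labels in `Fin (d * R)`, and every edge `e` has a map
`x e` from the right labels to the left labels such that every left label has at most `d` preimages.

A tree tensor network `Net K V A W` (`Pool/Agent/TH700/PA/Defs.lean`) has leaves that read one symbol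
of the alphabet `A` each (with a vector in `K ^ W` for each symbol); an inner node combines the
vectors of its two children by an arbitrary bilinear map. It accepts the input `x` if a linear form
of the vector of the root is not zero. The field `K` and the weights are arbitrary, so there may be
cancellations. The tree and the order of the edges are arbitrary; if every right child is a leaf then
this is a matrix product (a weighted read-once branching program). The bond dimension is `card W`.

The lower bound is the one for linear unique games (`Pool/Agent/Q329/LT/Main.lean`), whose equations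
are turned into d-to-1 constraints by `d` copies of every right label.
-/

set_option autoImplicit false

namespace Pool.Agent.Results.MP_62e2f2_lc.TensorNetworks

open Finset Pool.Agent.TH700.PA

/-- The maps of d-to-1 constraints: every left label has at most `d` preimages. -/
def Constraint (d R : ℕ) : Type :=
  {f : Fin (d * R) → Fin R // ∀ b, Nat.card {a // f a = b} ≤ d}

/-- The labelling `L` of the left and `M` of the right vertices satisfies the constraint of the edge
`e`. -/
def Satisfied {n d R : ℕ} (x : Fin n × Fin n → Constraint d R) (L : Fin n → Fin R)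
    (M : Fin n → Fin (d * R)) (e : Fin n × Fin n) : Prop :=
  (x e).1 (M e.2) = L e.1

/-- The game has value one: some labelling satisfies all constraints. -/
def ValueOne {n d R : ℕ} (x : Fin n × Fin n → Constraint d R) : Prop :=
  ∃ (L : Fin n → Fin R) (M : Fin n → Fin (d * R)), ∀ e, Satisfied x L M e

/-- The game has value at most `δ`: every labelling satisfies at most `δ n ^ 2` constraints. -/
def ValueLe {n d R : ℕ} (δ : ℝ) (x : Fin n × Fin n → Constraint d R) : Prop :=
  ∀ (L : Fin n → Fin R) (M : Fin n → Fin (d * R)),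
    (Nat.card {e // Satisfied x L M e} : ℝ) ≤ δ * (n : ℝ) ^ 2

/-- the network which reads translated symbols -/
def pull {K V A B W : Type} (g : B → A) : Net K V A W → Net K V B W
  | .leaf v f => .leaf v (fun b => f (g b))
  | .node l r c => .node (pull g l) (pull g r) c

theorem pull_eval {K V A B W : Type} [Semiring K] [Fintype W] (g : B → A) (T : Net K V A W)
    (x : V → B) : (pull g T).eval x = T.eval (fun v => g (x v)) := by
  induction T with
  | leaf v f => rfl
  | node l r c hl hr =>
    funext k
    simp only [pull, Net.eval, hl, hr]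

theorem pull_reads {K V A B W : Type} (g : B → A) (T : Net K V A W) (v : V) :
    (pull g T).reads v = T.reads v := by
  induction T with
  | leaf u f => rfl
  | node l r c hl hr => simp only [pull, Net.reads, hl, hr]

section

variable {d R : ℕ} [NeZero R]

/-- the left labels -/
noncomputable def lft (R : ℕ) [NeZero R] : Fin R ≃ ZMod R :=
  Fintype.equivOfCardEq (by rw [Fintype.card_fin, ZMod.card])

/-- the right labels -/
def rgt (d R : ℕ) : Fin (d * R) ≃ Fin d × Fin R := (finProdFinEquiv (m := d) (n := R)).symm

/-- the constraint of an equation -/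
noncomputable def con (d R : ℕ) [NeZero R] (x : ZMod R) : Constraint d R :=
  ⟨fun a => (lft R).symm (lft R (rgt d R a).2 - x), fun b => by
    have h : ∀ a : Fin (d * R), (lft R).symm (lft R (rgt d R a).2 - x) = b ↔
        (rgt d R a).2 = (lft R).symm (lft R b + x) := by
      intro a
      rw [Equiv.symm_apply_eq, sub_eq_iff_eq_add, ← Equiv.apply_eq_iff_eq_symm_apply]
    have hinj : Function.Injective
        (fun a : {a // (lft R).symm (lft R (rgt d R a).2 - x) = b} =>
          (rgt d R a.1).1) := by
      intro a a' haa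
      apply Subtype.ext
      apply (rgt d R).injective
      refine Prod.ext haa ?_
      rw [(h a.1).1 a.2, (h a'.1).1 a'.2]
    have := Nat.card_le_card_of_injective _ hinj
    rwa [Nat.card_eq_fintype_card (α := Fin d), Fintype.card_fin] at this⟩

theorem con_apply (x : ZMod R) (a : Fin (d * R)) (b : Fin R) :
    (con d R x).1 a = b ↔ lft R (rgt d R a).2 - lft R b = x := by
  change (lft R).symm (lft R (rgt d R a).2 - x) = b ↔ _
  rw [Equiv.symm_apply_eq]
  constructor
  · intro h
    rw [← h]
    abel
  · intro h
    rw [← h]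
    abel

theorem one_of_one {n : ℕ} (hd : 1 ≤ d) (x : Fin n × Fin n → ZMod R)
    (h : Pool.Agent.Q329.LT.ValueOne x) : ValueOne (fun e => con d R (x e)) := by
  obtain ⟨L, M, hLM⟩ := h
  refine ⟨fun u => (lft R).symm (L u), fun v => (rgt d R).symm (⟨0, hd⟩, (lft R).symm (M v)),
    fun e => ?_⟩
  unfold Satisfied
  rw [con_apply]
  simp only [Equiv.apply_symm_apply]
  exact hLM e

theorem le_of_le {n : ℕ} {δ : ℝ} (x : Fin n × Fin n → ZMod R)
    (h : Pool.Agent.Q329.LT.ValueLe δ x) : ValueLe δ (fun e => con d R (x e)) := by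
  intro L M
  refine le_trans (le_of_eq ?_) (h (fun u => lft R (L u))
    (fun v => lft R (rgt d R (M v)).2))
  congr 1
  apply Nat.card_congr
  apply Equiv.subtypeEquivRight
  intro e
  unfold Satisfied
  rw [con_apply]
  rfl

end

/-- every game has a labelling that satisfies a fraction `1 / R` of the constraints -/
theorem value_ge {n d R : ℕ} (hn : 1 ≤ n) (hd : 1 ≤ d) (hR : 1 ≤ R) {δ : ℝ} (hδ : δ < 1 / R)
    (x : Fin n × Fin n → Constraint d R) : ¬ ValueLe δ x := by
  classical
  intro hv
  have hR0 : (0 : ℝ) < R := by exact_mod_cast hR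
  have hdR : 0 < d * R := Nat.mul_pos hd hR
  have h1 : ∀ c : Fin R, ((univ.filter fun e => (x e).1 ⟨0, hdR⟩ = c).card : ℝ) ≤
      δ * (n : ℝ) ^ 2 := by
    intro c
    refine le_trans (le_of_eq ?_) (hv (fun _ => c) (fun _ => ⟨0, hdR⟩))
    rw [Nat.card_eq_fintype_card, Fintype.card_subtype]
    congr 2
    ext e
    rw [mem_filter, mem_filter]
    rfl
  have h2 : ∑ c : Fin R, ((univ.filter fun e => (x e).1 ⟨0, hdR⟩ = c).card : ℝ) =
      (n : ℝ) ^ 2 := by
    have := card_eq_sum_card_fiberwise (s := (univ : Finset (Fin n × Fin n)))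
      (f := fun e => (x e).1 ⟨0, hdR⟩) (t := univ) (fun _ _ => mem_univ _)
    rw [card_univ, Fintype.card_prod, Fintype.card_fin] at this
    rw [sq]
    exact_mod_cast this.symm
  have h3 := sum_le_sum (fun c (_ : c ∈ (univ : Finset (Fin R))) => h1 c)
  rw [h2, sum_const, card_univ, Fintype.card_fin, nsmul_eq_mul] at h3
  have hn2 : (0 : ℝ) < (n : ℝ) ^ 2 := by
    have : (1 : ℝ) ≤ n := by exact_mod_cast hn
    positivity
  have h4 : (R : ℝ) * δ < 1 := by
    rw [lt_div_iff₀ hR0] at hδ
    linarith
  nlinarith

theorem upper (d R : ℕ) {n : ℕ} (hn : 1 ≤ n) :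
    ∃ (T : Net ℚ (Fin n × Fin n) (Constraint d R) ((Fin n → Fin R) × (Fin n → Fin (d * R))))
      (a : (Fin n → Fin R) × (Fin n → Fin (d * R)) → ℚ),
      T.Linear ∧ (∀ e, T.reads e = 1) ∧ ∀ x, T.value a x =
        Nat.card {β : (Fin n → Fin R) × (Fin n → Fin (d * R)) // ∀ e, Satisfied x β.1 β.2 e} := by
  classical
  have : Nonempty (Fin n) := ⟨⟨0, hn⟩⟩
  obtain ⟨T, h1, h2, h3, h4⟩ := exists_product (K := ℚ)
    (fun (e : Fin n × Fin n) (ω : Constraint d R) (β : (Fin n → Fin R) × (Fin n → Fin (d * R))) =>
      if ω.1 (β.2 e.2) = β.1 e.1 then (1 : ℚ) else 0)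
  refine ⟨T, fun _ => 1, h1, h2, fun x => ?_⟩
  unfold Net.value
  have h5 : ∀ β : (Fin n → Fin R) × (Fin n → Fin (d * R)), (1 : ℚ) * T.eval x β =
      if ∀ e, Satisfied x β.1 β.2 e then 1 else 0 := by
    intro β
    rw [h4, one_mul]
    by_cases hall : ∀ e, Satisfied x β.1 β.2 e
    · rw [if_pos hall]
      exact prod_eq_one fun e _ => if_pos (hall e)
    · rw [if_neg hall]
      push Not at hall
      obtain ⟨e, he⟩ := hall
      exact prod_eq_zero (mem_univ e) (if_neg he)
  rw [sum_congr rfl fun β _ => h5 β, sum_boole, Nat.card_eq_fintype_card, Fintype.card_subtype]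

/-- Let `d ≥ 1` and `R ≥ 2`.

(1) For every `δ > 1 / R` there is a constant `D`, which does not depend on `d`, such that for all
`n ≥ D` tensor networks with any number of nodes which read every edge at most once, accept all
d-to-1 games of value one and reject all d-to-1 games of value at most `δ`, have bond dimension at
least `2 ^ (n / D)`. This holds up to the factor `2 ^ μ` also for random networks which never accept
a game of value at most `δ` and accept every game of value one with probability at least
`2 ^ (- μ)`.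

(2) For `δ < 1 / R` there are no games of value at most `δ`.

(3) The number of labellings which satisfy all constraints is computed by a linear network over `ℚ`
of bond dimension `R ^ n (d R) ^ n` which reads every edge once. -/
theorem result (R : ℕ) (hR : 2 ≤ R) :
    (∀ δ : ℝ, 1 / (R : ℝ) < δ → ∃ D : ℕ, 0 < D ∧ ∀ d n : ℕ, 1 ≤ d → D ≤ n →
      ∀ (μ : ℕ) (Ρ : Type) [Fintype Ρ] [Nonempty Ρ] (K W : Ρ → Type) [∀ ρ, Field (K ρ)]
        [∀ ρ, Fintype (W ρ)] (T : ∀ ρ, Net (K ρ) (Fin n × Fin n) (Constraint d R) (W ρ))
        (a : ∀ ρ, W ρ → K ρ),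
        (∀ ρ e, (T ρ).reads e ≤ 1) →
        (∀ ρ x, ValueLe δ x → (T ρ).value (a ρ) x = 0) →
        (∀ x, ValueOne x → Nat.card Ρ ≤ 2 ^ μ * Nat.card {ρ // (T ρ).value (a ρ) x ≠ 0}) →
        ∃ ρ, 2 ^ n ≤ (2 ^ μ * Fintype.card (W ρ)) ^ D) ∧
    (∀ d n : ℕ, 1 ≤ d → 1 ≤ n → ∀ δ : ℝ, δ < 1 / (R : ℝ) → ∀ x : Fin n × Fin n → Constraint d R,
      ¬ ValueLe δ x) ∧
    ∀ d n : ℕ, 1 ≤ n →
      ∃ (T : Net ℚ (Fin n × Fin n) (Constraint d R) ((Fin n → Fin R) × (Fin n → Fin (d * R))))
        (a : (Fin n → Fin R) × (Fin n → Fin (d * R)) → ℚ),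
        T.Linear ∧ (∀ e, T.reads e = 1) ∧ ∀ x, T.value a x =
          Nat.card {β : (Fin n → Fin R) × (Fin n → Fin (d * R)) //
            ∀ e, Satisfied x β.1 β.2 e} := by
  have : NeZero R := ⟨by omega⟩
  refine ⟨fun δ hδ => ?_, fun d n hd hn δ hδ x => value_ge hn hd (by omega) hδ x,
    fun d n hn => upper d R hn⟩
  obtain ⟨D, hD, h⟩ := Pool.Agent.Q329.LT.lower R hR δ hδ
  refine ⟨D, hD, fun d n hd hn μ Ρ _ _ K W _ _ T a h1 h2 h3 => ?_⟩
  have hval : ∀ ρ (x : Fin n × Fin n → ZMod R), (pull (con d R) (T ρ)).value (a ρ) x =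
      (T ρ).value (a ρ) (fun e => con d R (x e)) := by
    intro ρ x
    unfold Net.value
    rw [pull_eval]
  refine h n hn μ Ρ K W (fun ρ => pull (con d R) (T ρ)) a
    (fun ρ e => by rw [pull_reads]; exact h1 ρ e)
    (fun ρ x hx => by rw [hval]; exact h2 ρ _ (le_of_le x hx)) (fun x hx => ?_)
  simp only [hval]
  exact h3 _ (one_of_one hd x hx)

end Pool.Agent.Results.MP_62e2f2_lc.TensorNetworks
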